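import Mathlib
import Pool.Agent.H220.K.Stm

set_option autoImplicit false

open Set Filter Topology Metric

namespace Pool.Agent.H767.K

open Pool.Agent.H220.K

lemma norm_A_le (P : ℕ → ℂ) (hP : ∀ j, ‖P j‖ ≤ 1) (R : ℝ) (hR : 1 ≤ R) :
    ∃ n₁ : ℕ, ∀ n ≥ n₁, ∀ p : ℂ, ‖p‖ ≤ R → ‖A P n p‖ ≤ (1/2 : ℝ) ^ n := by
  have h : Tendsto (fun n : ℕ => (R + 1) * (1/2 : ℝ) ^ n) atTop (𝓝 ((R+1) * 0)) :=
    (tendsto_pow_atTop_nhds_zero_of_lt_one (by norm_num) (by norm_num)).const_mul _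
  rw [mul_zero] at h
  obtain ⟨n₁, hn₁⟩ := eventually_atTop.mp (h.eventually (ge_mem_nhds (by norm_num : (0:ℝ) < 1/2)))
  refine ⟨n₁, fun n hn p hp => ?_⟩
  have h1 : ‖A P n p‖ = (1/2 : ℝ) ^ (n^2) * ∏ j ∈ Finset.range n, ‖p - P j‖ := by
    simp [A, norm_pow, norm_prod]
  have h2 : ∏ j ∈ Finset.range n, ‖p - P j‖ ≤ (R+1)^n := by
    calc _ ≤ ∏ j ∈ Finset.range n, (R+1) := Finset.prod_le_prod (fun _ _ => norm_nonneg _) (fun j _ => by
            calc ‖p - P j‖ ≤ ‖p‖ + ‖P j‖ := norm_sub_le _ _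
              _ ≤ R + 1 := add_le_add hp (hP j))
      _ = (R+1)^n := by simp
  rw [h1]
  calc (1/2 : ℝ) ^ (n^2) * ∏ j ∈ Finset.range n, ‖p - P j‖ ≤ (1/2 : ℝ) ^ (n^2) * (R+1)^n := by gcongr
    _ = ((R+1) * (1/2:ℝ)^n)^n := by rw [mul_pow, ← pow_mul, sq]; ring
    _ ≤ (1/2)^n := by
        apply pow_le_pow_left₀
        · positivity
        · exact hn₁ n hn

/-- the smallness condition used for all the estimates -/
def Good (P : ℕ → ℂ) (R : ℝ) (m : ℕ) : Prop :=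
  12 * R * (1/4:ℝ)^m ≤ 1 ∧ ∀ p : ℂ, ‖p‖ ≤ R →
    ‖A P (2*m) p‖ ≤ (1/4:ℝ)^m ∧ ‖A P (2*m+1) p‖ ≤ (1/4:ℝ)^m

lemma exists_good (P : ℕ → ℂ) (hP : ∀ j, ‖P j‖ ≤ 1) (R : ℝ) (hR : 1 ≤ R) :
    ∃ M : ℕ, ∀ m ≥ M, Good P R m := by
  obtain ⟨n₁, hn₁⟩ := norm_A_le P hP R hR
  have h : Tendsto (fun n : ℕ => (12 * R) * (1/4 : ℝ) ^ n) atTop (𝓝 ((12 * R) * 0)) :=
    (tendsto_pow_atTop_nhds_zero_of_lt_one (by norm_num) (by norm_num)).const_mul _
  rw [mul_zero] at h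
  obtain ⟨n₂, hn₂⟩ := eventually_atTop.mp (h.eventually (ge_mem_nhds (by norm_num : (0:ℝ) < 1)))
  refine ⟨max n₁ n₂, fun m hm => ⟨hn₂ m (le_of_max_le_right hm), fun p hp => ?_⟩⟩
  have hm1 : n₁ ≤ m := le_of_max_le_left hm
  have e : (1/2:ℝ)^(2*m) = (1/4:ℝ)^m := by rw [pow_mul]; norm_num
  refine ⟨?_, ?_⟩
  · rw [← e]; exact hn₁ _ (by omega) p hp
  · refine (hn₁ (2*m+1) (by omega) p hp).trans ?_
    rw [pow_succ, e]
    have : (0:ℝ) ≤ (1/4:ℝ)^m := by positivity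
    linarith

lemma norm_le3 {x : E3} {C : ℝ} (h1 : ‖x.1‖ ≤ C) (h2 : ‖x.2.1‖ ≤ C) (h3 : ‖x.2.2‖ ≤ C) :
    ‖x‖ ≤ C := by
  rw [Prod.norm_def, Prod.norm_def]
  exact max_le h1 (max_le h2 h3)

lemma n1 (x : E3) : ‖x.1‖ ≤ ‖x‖ := norm_fst_le x
lemma n2 (x : E3) : ‖x.2.1‖ ≤ ‖x‖ := (norm_fst_le x.2).trans (norm_snd_le x)
lemma n3 (x : E3) : ‖x.2.2‖ ≤ ‖x‖ := (norm_snd_le x.2).trans (norm_snd_le x)

lemma norm_b {P : ℕ → ℂ} {R : ℝ} {m : ℕ} (hR : 1 ≤ R) (h : Good P R m) {x : E3}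
    (h1 : ‖x.1‖ ≤ R) (h2 : ‖x.2.1‖ ≤ 2*R) (h3 : ‖x.2.2‖ ≤ 2*R) :
    ‖A P (2*m+1) x.1 * x.2.1^2‖ ≤ 4 * R^2 * (1/4:ℝ)^m ∧
    ‖x.2.2 - A P (2*m+1) x.1 * x.2.1^2‖ ≤ 3 * R := by
  have hq : (0:ℝ) ≤ (1/4:ℝ)^m := by positivity
  have e1 : ‖A P (2*m+1) x.1 * x.2.1^2‖ ≤ 4 * R^2 * (1/4:ℝ)^m := by
    rw [norm_mul, norm_pow]
    calc ‖A P (2*m+1) x.1‖ * ‖x.2.1‖^2 ≤ (1/4:ℝ)^m * (2*R)^2 := by
          gcongr
          exact (h.2 _ h1).2
      _ = _ := by ring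
  refine ⟨e1, ?_⟩
  calc ‖x.2.2 - A P (2*m+1) x.1 * x.2.1^2‖ ≤ ‖x.2.2‖ + ‖A P (2*m+1) x.1 * x.2.1^2‖ := norm_sub_le _ _
    _ ≤ 2 * R + 4 * R^2 * (1/4:ℝ)^m := add_le_add h3 e1
    _ ≤ 3 * R := by
        have := h.1
        nlinarith [mul_nonneg (by linarith : (0:ℝ) ≤ R) hq]

lemma step {P : ℕ → ℂ} {R : ℝ} {m : ℕ} (hR : 1 ≤ R) (h : Good P R m) {x : E3}
    (h1 : ‖x.1‖ ≤ R) (h2 : ‖x.2.1‖ ≤ 2*R) (h3 : ‖x.2.2‖ ≤ 2*R) :
    ‖G P m x - x‖ ≤ 9 * R^2 * (1/4:ℝ)^m := by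
  have hq : (0:ℝ) ≤ (1/4:ℝ)^m := by positivity
  obtain ⟨e1, e2⟩ := norm_b hR h h1 h2 h3
  apply norm_le3
  · simp only [G, Prod.fst_sub, sub_self, norm_zero]
    positivity
  · simp only [G, Prod.snd_sub, Prod.fst_sub]
    rw [sub_sub_cancel_left, norm_neg, norm_mul, norm_pow]
    calc ‖A P (2*m) x.1‖ * ‖x.2.2 - A P (2*m+1) x.1 * x.2.1^2‖^2 ≤ (1/4:ℝ)^m * (3*R)^2 := by
          gcongr
          exact (h.2 _ h1).1
      _ = _ := by ring
  · simp only [G, Prod.snd_sub]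
    rw [sub_sub_cancel_left, norm_neg]
    refine e1.trans ?_
    gcongr
    norm_num

lemma lip {P : ℕ → ℂ} {R : ℝ} {m : ℕ} (hR : 1 ≤ R) (h : Good P R m) {x y : E3}
    (hxy : x.1 = y.1)
    (h1 : ‖x.1‖ ≤ R) (h2 : ‖x.2.1‖ ≤ 2*R) (h3 : ‖x.2.2‖ ≤ 2*R)
    (k2 : ‖y.2.1‖ ≤ 2*R) (k3 : ‖y.2.2‖ ≤ 2*R) :
    ‖G P m x - G P m y‖ ≤ (1 + 12 * R * (1/4:ℝ)^m) * ‖x - y‖ := by
  have hq : (0:ℝ) ≤ (1/4:ℝ)^m := by positivity
  have k1 : ‖y.1‖ ≤ R := hxy ▸ h1
  obtain ⟨-, e2⟩ := norm_b hR h h1 h2 h3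
  obtain ⟨-, f2⟩ := norm_b hR h k1 k2 k3
  have d0 : 0 ≤ ‖x - y‖ := norm_nonneg _
  have d2 : ‖x.2.1 - y.2.1‖ ≤ ‖x - y‖ := n2 (x - y)
  have d3 : ‖x.2.2 - y.2.2‖ ≤ ‖x - y‖ := n3 (x - y)
  have hb : ‖(x.2.2 - A P (2*m+1) x.1 * x.2.1^2) - (y.2.2 - A P (2*m+1) y.1 * y.2.1^2)‖
      ≤ (1 + 4 * R * (1/4:ℝ)^m) * ‖x - y‖ := by
    rw [← hxy]
    have : (x.2.2 - A P (2*m+1) x.1 * x.2.1^2) - (y.2.2 - A P (2*m+1) x.1 * y.2.1^2)
      = (x.2.2 - y.2.2) - A P (2*m+1) x.1 * ((x.2.1 + y.2.1) * (x.2.1 - y.2.1)) := by ring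
    rw [this]
    refine (norm_sub_le _ _).trans ?_
    have e : ‖A P (2*m+1) x.1 * ((x.2.1 + y.2.1) * (x.2.1 - y.2.1))‖ ≤ (1/4:ℝ)^m * ((4*R) * ‖x-y‖) := by
      rw [norm_mul, norm_mul]
      gcongr
      · exact (h.2 _ h1).2
      · exact (norm_add_le _ _).trans (by linarith)
    calc _ ≤ ‖x - y‖ + (1/4:ℝ)^m * ((4*R) * ‖x-y‖) := add_le_add d3 e
      _ = _ := by ring
  have h4 : 4 * R * (1/4:ℝ)^m ≤ 1 := by nlinarith [h.1]
  apply norm_le3
  · simp only [G, Prod.fst_sub, hxy, sub_self, norm_zero]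
    positivity
  · simp only [G, Prod.snd_sub, Prod.fst_sub]
    set u := x.2.2 - A P (2*m+1) x.1 * x.2.1^2 with hu
    set v := y.2.2 - A P (2*m+1) y.1 * y.2.1^2 with hv
    rw [← hxy]
    have : (x.2.1 - A P (2*m) x.1 * u^2) - (y.2.1 - A P (2*m) x.1 * v^2)
      = (x.2.1 - y.2.1) - A P (2*m) x.1 * ((u+v) * (u - v)) := by ring
    rw [this]
    refine (norm_sub_le _ _).trans ?_
    have e : ‖A P (2*m) x.1 * ((u + v) * (u - v))‖ ≤ (1/4:ℝ)^m * ((6*R) * (2 * ‖x-y‖)) := by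
      rw [norm_mul, norm_mul]
      gcongr
      · exact (h.2 _ h1).1
      · exact (norm_add_le _ _).trans (by linarith)
      · refine hb.trans ?_
        gcongr
        linarith
    calc _ ≤ ‖x - y‖ + (1/4:ℝ)^m * ((6*R) * (2 * ‖x-y‖)) := add_le_add d2 e
      _ = _ := by ring
  · simp only [G, Prod.snd_sub]
    refine hb.trans ?_
    gcongr
    norm_num

lemma tail_fst (P : ℕ → ℂ) (N m : ℕ) (x : E3) : (tail P N m x).1 = x.1 := by
  induction N generalizing m with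
  | zero => rfl
  | succ N ih => 
    show (G P m (tail P N (m+1) x)).1 = x.1
    simp only [G]
    exact ih (m+1)

lemma tail_close {P : ℕ → ℂ} {R : ℝ} (hR : 1 ≤ R) {M : ℕ} (h : ∀ m ≥ M, Good P R m) (N : ℕ) :
    ∀ m ≥ M, ∀ x : E3, ‖x‖ ≤ R → ‖tail P N m x - x‖ ≤ 12 * R^2 * (1/4:ℝ)^m := by
  induction N with
  | zero => 
    intro m _ x _
    simp only [tail, sub_self, norm_zero]
    positivity
  | succ N ih =>
    intro m hm x hx
    have hq : (0:ℝ) ≤ (1/4:ℝ)^m := by positivity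
    have h1 := ih (m+1) (by omega) x hx
    have e : (1/4:ℝ)^(m+1) = (1/4:ℝ)^m * (1/4) := pow_succ _ _
    rw [e] at h1
    have hg := h m hm
    have h2 : ‖tail P N (m+1) x‖ ≤ 2 * R := by
      have : ‖tail P N (m+1) x‖ ≤ ‖tail P N (m+1) x - x‖ + ‖x‖ := by
        have := norm_add_le (tail P N (m+1) x - x) x
        simpa using this
      have h3 := hg.1
      nlinarith [mul_nonneg (by linarith : (0:ℝ) ≤ R) hq]
    have h4 := step hR hg (x := tail P N (m+1) x) (by rw [tail_fst]; exact (n1 x).trans hx)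
      ((n2 _).trans h2) ((n3 _).trans h2)
    show ‖G P m (tail P N (m+1) x) - x‖ ≤ _
    calc ‖G P m (tail P N (m+1) x) - x‖ 
        ≤ ‖G P m (tail P N (m+1) x) - tail P N (m+1) x‖ + ‖tail P N (m+1) x - x‖ := 
          norm_sub_le_norm_sub_add_norm_sub _ _ _
      _ ≤ 9 * R^2 * (1/4:ℝ)^m + 12 * R^2 * ((1/4:ℝ)^m * (1/4)) := add_le_add h4 h1
      _ = _ := by ring

lemma tail_ball {P : ℕ → ℂ} {R : ℝ} (hR : 1 ≤ R) {M : ℕ} (h : ∀ m ≥ M, Good P R m) (N : ℕ) :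
    ∀ m ≥ M, ∀ x : E3, ‖x‖ ≤ R → ‖tail P N m x‖ ≤ 2 * R := by
  intro m hm x hx
  have hq : (0:ℝ) ≤ (1/4:ℝ)^m := by positivity
  have h1 := tail_close hR h N m hm x hx
  have h3 := (h m hm).1
  have : ‖tail P N m x‖ ≤ ‖tail P N m x - x‖ + ‖x‖ := by
    have := norm_add_le (tail P N m x - x) x
    simpa using this
  nlinarith [mul_nonneg (by linarith : (0:ℝ) ≤ R) hq]

lemma tail_lip {P : ℕ → ℂ} {R : ℝ} (hR : 1 ≤ R) {M : ℕ} (h : ∀ m ≥ M, Good P R m) (N : ℕ) :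
    ∀ m ≥ M, ∀ x y : E3, x.1 = y.1 → ‖x‖ ≤ R → ‖y‖ ≤ R → 
      ‖tail P N m x - tail P N m y‖ ≤ (1 + 24 * R * (1/4:ℝ)^m) * ‖x - y‖ := by
  induction N with
  | zero => 
    intro m _ x y _ _ _
    simp only [tail]
    have hq : (0:ℝ) ≤ (1/4:ℝ)^m := by positivity
    have : 0 ≤ 24 * R * (1/4:ℝ)^m * ‖x - y‖ := by positivity
    nlinarith
  | succ N ih =>
    intro m hm x y hxy hx hy
    have hq : (0:ℝ) ≤ (1/4:ℝ)^m := by positivity
    have h1 := ih (m+1) (by omega) x y hxy hx hy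
    have e : (1/4:ℝ)^(m+1) = (1/4:ℝ)^m * (1/4) := pow_succ _ _
    rw [e] at h1
    have hg := h m hm
    have bx := tail_ball hR h N (m+1) (by omega) x hx
    have by' := tail_ball hR h N (m+1) (by omega) y hy
    have h4 := lip hR hg (x := tail P N (m+1) x) (y := tail P N (m+1) y)
      (by rw [tail_fst, tail_fst, hxy]) (by rw [tail_fst]; exact (n1 x).trans hx)
      ((n2 _).trans bx) ((n3 _).trans bx) ((n2 _).trans by') ((n3 _).trans by')
    show ‖G P m (tail P N (m+1) x) - G P m (tail P N (m+1) y)‖ ≤ _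
    refine h4.trans ?_
    have hd : 0 ≤ ‖x - y‖ := norm_nonneg _
    have h3 := hg.1
    set t := 12 * R * (1/4:ℝ)^m with ht
    have ht0 : 0 ≤ t := by positivity
    calc (1 + t) * ‖tail P N (m+1) x - tail P N (m+1) y‖ 
        ≤ (1 + t) * ((1 + 24 * R * ((1/4:ℝ)^m * (1/4))) * ‖x - y‖) := by gcongr
      _ = (1 + t) * (1 + t/2) * ‖x - y‖ := by rw [ht]; ring
      _ ≤ (1 + 2 * t) * ‖x - y‖ := by
          gcongr
          nlinarith
      _ = _ := by rw [ht]; ring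

lemma tail_add (P : ℕ → ℂ) (N k m : ℕ) (x : E3) : 
    tail P (N + k) m x = tail P N m (tail P k (m + N) x) := by
  induction N generalizing m with
  | zero => simp [tail]
  | succ N ih => 
    have : N + 1 + k = (N + k) + 1 := by omega
    rw [this]
    show G P m (tail P (N + k) (m+1) x) = G P m (tail P N (m+1) (tail P k (m + (N + 1)) x))
    rw [ih (m+1)]
    congr 3
    omega

lemma continuous_A (P : ℕ → ℂ) (n : ℕ) : Continuous (A P n) := by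
  unfold A
  fun_prop

lemma continuous_G (P : ℕ → ℂ) (m : ℕ) : Continuous (G P m) := by
  have h1 := continuous_A P (2*m)
  have h2 := continuous_A P (2*m+1)
  unfold G
  fun_prop

lemma continuous_tail (P : ℕ → ℂ) (N m : ℕ) : Continuous (tail P N m) := by
  induction N generalizing m with
  | zero => exact continuous_id
  | succ N ih => exact (continuous_G P m).comp (ih (m+1))

/-- the Cauchy estimate -/
lemma tail_cauchy {P : ℕ → ℂ} {R : ℝ} (hR : 1 ≤ R) {M : ℕ} (h : ∀ m ≥ M, Good P R m)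
    (h' : ∀ m ≥ M, Good P (2 * R) m) (N k : ℕ) :
    ∀ m ≥ M, ∀ x : E3, ‖x‖ ≤ R → 
      ‖tail P (N + k) m x - tail P N m x‖ ≤ 36 * R^2 * (1/4:ℝ)^(m+N) := by
  intro m hm x hx
  rw [tail_add]
  have h1 := tail_lip (R := 2 * R) (by linarith) h' N m hm (tail P k (m+N) x) x (tail_fst _ _ _ _)
    (tail_ball hR h k (m+N) (by omega) x hx) (hx.trans (by linarith))
  have h2 := tail_close hR h k (m+N) (by omega) x hx
  have h3 := (h' m hm).1
  refine h1.trans ?_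
  calc (1 + 24 * (2*R) * (1/4:ℝ)^m) * ‖tail P k (m+N) x - x‖ 
      ≤ 3 * (12 * R^2 * (1/4:ℝ)^(m+N)) := by
        gcongr
        linarith
    _ = _ := by ring

lemma tail_lim_est {P : ℕ → ℂ} {R : ℝ} (hR : 1 ≤ R) {M : ℕ} (h : ∀ m ≥ M, Good P R m)
    (h' : ∀ m ≥ M, Good P (2 * R) m) {m : ℕ} (hm : m ≥ M) {x y : E3} (hx : ‖x‖ ≤ R)
    (hy : Tendsto (fun N => tail P N m x) atTop (𝓝 y)) (N : ℕ) :
    ‖y - tail P N m x‖ ≤ 36 * R^2 * (1/4:ℝ)^(m+N) := by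
  have h1 : Tendsto (fun k => ‖tail P (N + k) m x - tail P N m x‖) atTop
      (𝓝 ‖y - tail P N m x‖) := by
    have : Tendsto (fun k => tail P (N + k) m x) atTop (𝓝 y) := by
      have := hy.comp (tendsto_add_atTop_nat N)
      refine this.congr (fun k => ?_)
      simp [add_comm]
    exact (this.sub_const _).norm
  exact le_of_tendsto h1 (Eventually.of_forall (fun k => tail_cauchy hR h h' N k m hm x hx))

lemma tail_cauchySeq {P : ℕ → ℂ} {R : ℝ} (hR : 1 ≤ R) {M : ℕ} (h : ∀ m ≥ M, Good P R m)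
    (h' : ∀ m ≥ M, Good P (2 * R) m) {m : ℕ} (hm : m ≥ M) {x : E3} (hx : ‖x‖ ≤ R) :
    ∃ y, Tendsto (fun N => tail P N m x) atTop (𝓝 y) := by
  apply cauchySeq_tendsto_of_complete
  have h0 : Tendsto (fun N : ℕ => 36 * R^2 * (1/4:ℝ)^m * (1/4:ℝ)^N) atTop (𝓝 (36 * R^2 * (1/4:ℝ)^m * 0)) :=
    (tendsto_pow_atTop_nhds_zero_of_lt_one (by norm_num) (by norm_num)).const_mul _
  rw [mul_zero] at h0
  refine cauchySeq_of_le_tendsto_0' _ (fun n n' hn => ?_) h0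
  obtain ⟨k, rfl⟩ := Nat.exists_eq_add_of_le hn
  rw [dist_comm, dist_eq_norm]
  refine (tail_cauchy hR h h' n k m hm x hx).trans (le_of_eq ?_)
  rw [pow_add]; ring

lemma exists_both (P : ℕ → ℂ) (hP : ∀ j, ‖P j‖ ≤ 1) (R : ℝ) (hR : 1 ≤ R) :
    ∃ M : ℕ, (∀ m ≥ M, Good P R m) ∧ (∀ m ≥ M, Good P (2 * R) m) := by
  obtain ⟨M1, h1⟩ := exists_good P hP R hR
  obtain ⟨M2, h2⟩ := exists_good P hP (2 * R) (by linarith)
  exact ⟨max M1 M2, fun m hm => h1 m (le_of_max_le_left hm), fun m hm => h2 m (le_of_max_le_right hm)⟩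

lemma tail_shift (P : ℕ → ℂ) (d N m : ℕ) (x : E3) :
    tail P (N + d) m x = tail P d m (tail P N (m + d) x) := by
  rw [add_comm N d, tail_add]

lemma tail_tendsto (P : ℕ → ℂ) (hP : ∀ j, ‖P j‖ ≤ 1) (m : ℕ) (x : E3) :
    ∃ y, Tendsto (fun N => tail P N m x) atTop (𝓝 y) := by
  obtain ⟨M, h, h'⟩ := exists_both P hP (max 1 ‖x‖) (le_max_left _ _)
  obtain ⟨y, hy⟩ := tail_cauchySeq (le_max_left _ _) h h' (m := m + M) (by omega) (le_max_right 1 ‖x‖)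
  refine ⟨tail P M m y, ?_⟩
  rw [← tendsto_add_atTop_iff_nat M]
  have := ((continuous_tail P M m).tendsto y).comp hy
  refine this.congr (fun N => ?_)
  simp only [Function.comp]
  rw [tail_shift]

lemma unif_shift {F : ℕ → E3 → E3} {f : E3 → E3} {s : Set E3} (d : ℕ)
    (h : TendstoUniformlyOn (fun N => F (N + d)) f atTop s) : TendstoUniformlyOn F f atTop s := by
  rw [Metric.tendstoUniformlyOn_iff] at h ⊢
  intro ε hε
  obtain ⟨N, hN⟩ := eventually_atTop.mp (h ε hε)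
  refine eventually_atTop.mpr ⟨N + d, fun n hn x hx => ?_⟩
  obtain ⟨k, rfl⟩ := Nat.exists_eq_add_of_le hn
  have := hN (N + k) (by omega) x hx
  have e : N + k + d = N + d + k := by omega
  rwa [e] at this

theorem s_tail : S_tail := by
  intro P hP
  choose T hT using tail_tendsto P hP
  refine ⟨T, ?_, ?_⟩
  · intro m R
    suffices hs : TendstoUniformlyOn (fun N x => tail P N m x) (T m) atTop
        (closedBall 0 (max 1 R)) from
      hs.mono (closedBall_subset_closedBall (le_max_right _ _))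
    have hR : 1 ≤ max 1 R := le_max_left _ _
    generalize max 1 R = R at hR
    obtain ⟨M, h, h'⟩ := exists_both P hP R hR
    have hu : TendstoUniformlyOn (fun N x => tail P N (m + M) x) (T (m + M)) atTop
        (closedBall 0 R) := by
      rw [Metric.tendstoUniformlyOn_iff]
      intro ε hε
      have h0 : Tendsto (fun N : ℕ => 36 * R^2 * (1/4:ℝ)^(m+M) * (1/4:ℝ)^N) atTop
          (𝓝 (36 * R^2 * (1/4:ℝ)^(m+M) * 0)) :=
        (tendsto_pow_atTop_nhds_zero_of_lt_one (by norm_num) (by norm_num)).const_mul _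
      rw [mul_zero] at h0
      filter_upwards [h0.eventually (gt_mem_nhds hε)] with N hN x hx
      rw [dist_eq_norm]
      have hx' : ‖x‖ ≤ R := by simpa using hx
      have := tail_lim_est hR h h' (m := m + M) (by omega) hx' (hT (m+M) x) N
      refine lt_of_le_of_lt this ?_
      rw [pow_add]
      linarith
    have hb : ∀ N, ∀ x ∈ closedBall (0:E3) R, tail P N (m + M) x ∈ closedBall (0:E3) (2 * R) := by
      intro N x hx
      have hx' : ‖x‖ ≤ R := by simpa using hx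
      simpa using tail_ball hR h N (m + M) (by omega) x hx'
    have hb' : ∀ x ∈ closedBall (0:E3) R, T (m + M) x ∈ closedBall (0:E3) (2 * R) := by
      intro x hx
      exact isClosed_closedBall.mem_of_tendsto (hT (m + M) x)
        (Eventually.of_forall (fun N => hb N x hx))
    have hc : UniformContinuousOn (tail P M m) (closedBall (0:E3) (2 * R)) :=
      (isCompact_closedBall _ _).uniformContinuousOn_of_continuous
        (continuous_tail P M m).continuousOn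
    have hf := UniformContinuousOn.comp_tendstoUniformlyOn_eventually
      (Eventually.of_forall hb) hb' hc hu
    apply unif_shift M
    refine (hf.congr (Eventually.of_forall (fun N x _ => ?_))).congr_right (fun x _ => ?_)
    · simp only
      rw [tail_shift]
    · simp only
      have h1 : Tendsto (fun N => tail P (N + M) m x) atTop (𝓝 (tail P M m (T (m+M) x))) := by
        have := ((continuous_tail P M m).tendsto _).comp (hT (m+M) x)
        refine this.congr (fun N => ?_)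
        simp only [Function.comp]
        rw [tail_shift]
      have h2 : Tendsto (fun N => tail P (N + M) m x) atTop (𝓝 (T m x)) :=
        (tendsto_add_atTop_iff_nat M).mpr (hT m x)
      exact tendsto_nhds_unique h1 h2
  · intro R ε hε
    suffices hs : ∃ M : ℕ, ∀ m ≥ M, ∀ x ∈ closedBall (0 : E3) (max 1 R), ‖T m x - x‖ ≤ ε by
      obtain ⟨M, hM⟩ := hs
      exact ⟨M, fun m hm x hx => hM m hm x (closedBall_subset_closedBall (le_max_right _ _) hx)⟩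
    have hR : 1 ≤ max 1 R := le_max_left _ _
    generalize max 1 R = R at hR
    obtain ⟨M, h⟩ := exists_good P hP R hR
    have h0 : Tendsto (fun N : ℕ => 12 * R^2 * (1/4:ℝ)^N) atTop (𝓝 (12 * R^2 * 0)) :=
      (tendsto_pow_atTop_nhds_zero_of_lt_one (by norm_num) (by norm_num)).const_mul _
    rw [mul_zero] at h0
    obtain ⟨M', hM'⟩ := eventually_atTop.mp (h0.eventually (ge_mem_nhds hε))
    refine ⟨max M M', fun m hm x hx => ?_⟩
    have hx' : ‖x‖ ≤ R := by simpa using hx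
    have h1 : Tendsto (fun N => ‖tail P N m x - x‖) atTop (𝓝 ‖T m x - x‖) :=
      ((hT m x).sub_const _).norm
    have h2 : ‖T m x - x‖ ≤ 12 * R^2 * (1/4:ℝ)^m :=
      le_of_tendsto h1 (Eventually.of_forall
        (fun N => tail_close hR h N m (le_of_max_le_left hm) x hx'))
    exact h2.trans (hM' m (le_of_max_le_right hm))

end Pool.Agent.H767.K
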